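import Pool.Agent.MWH.StmtsC

/-!
# MWH row EHH (helper39)
-/

set_option autoImplicit false

namespace Pool.Agent.MWH.H39

open Pool.Agent.Helper14_MV Pool.Agent.Helper2_MV Pool.Agent.MVO Pool.Agent.MWL Pool.Agent.MWS

theorem eg_nil {β : FIC} {k : ℕ} {a b : ℕ → ℕ} {i : ℕ} {s s' : Stt} (h : Tr β k a b i s s') :
    Eg β k a b i s s' :=
  ⟨[], fun _ he => absurd he List.not_mem_nil, fun _ hle _ =>
    ⟨fun _ _ he => absurd he List.not_mem_nil, fun _ => hle _ _ h⟩⟩

theorem ehh (hKHH : KhhStmt) : EhhStmt := by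
  intro β hβ k a b i hV ha hb
  have h := hKHH β hβ k a b i hV ha hb
  have h1 : Vs a b i Stt.xy := fun hs => absurd hs (by decide)
  have h2 : Vs a b i Stt.yx := fun hs => absurd hs (by decide)
  have h3 : Vs a b i Stt.ov := fun _ => Or.inl ha
  exact ⟨eg_nil (h _ _ h1 h3), eg_nil (h _ _ h2 h3)⟩

end Pool.Agent.MWH.H39
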